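import Mathlib.Tactic

/-!
Sums of five positive cubes: the identity, scaling, and a kernel check of the odd `m < 15811`.
-/

namespace Pool.Agent.Cubes5

/-- `n` is a sum of five positive cubes. -/
def Five (n : ℕ) : Prop :=
  ∃ a b c d e : ℕ, 0 < a ∧ 0 < b ∧ 0 < c ∧ 0 < d ∧ 0 < e ∧
    n = a ^ 3 + b ^ 3 + c ^ 3 + d ^ 3 + e ^ 3

theorem Five.scale {n : ℕ} (h : Five n) (k : ℕ) (hk : 0 < k) : Five (k ^ 3 * n) := by
  obtain ⟨a, b, c, d, e, ha, hb, hc, hd, he, rfl⟩ := h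
  exact ⟨k * a, k * b, k * c, k * d, k * e, by positivity, by positivity, by positivity,
    by positivity, by positivity, by ring⟩

theorem Five.of_int {n : ℕ} (a b c d e : ℤ) (ha : 0 < a) (hb : 0 < b) (hc : 0 < c) (hd : 0 < d)
    (he : 0 < e) (h : (n : ℤ) = a ^ 3 + b ^ 3 + c ^ 3 + d ^ 3 + e ^ 3) : Five n := by
  lift a to ℕ using ha.le
  lift b to ℕ using hb.le
  lift c to ℕ using hc.le
  lift d to ℕ using hd.le
  lift e to ℕ using he.le
  exact ⟨a, b, c, d, e, by exact_mod_cast ha, by exact_mod_cast hb, by exact_mod_cast hc,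
    by exact_mod_cast hd, by exact_mod_cast he, by exact_mod_cast h⟩

/-- The identity behind everything. -/
theorem five_of_params {m : ℕ} {a x y : ℤ} (ha : 0 < a) (hm : 0 < (m : ℤ) - 2 * a)
    (hx : x ^ 2 < a ^ 2) (hy : y ^ 2 < (3 * a) ^ 2)
    (h : ((m : ℤ) - 4 * a) * (m + 2 * a) = x ^ 2 + 3 * y ^ 2) : Five (m ^ 3) := by
  obtain ⟨h1, h2⟩ := abs_lt.mp (abs_lt_of_sq_lt_sq hx ha.le)
  obtain ⟨h3, h4⟩ := abs_lt.mp (abs_lt_of_sq_lt_sq hy (by linarith))
  refine Five.of_int ((m : ℤ) - 2 * a) (a + x) (a - x) (3 * a + y) (3 * a - y) hm (by linarith)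
    (by linarith) (by linarith) (by linarith) ?_
  push_cast
  linear_combination (6 * a) * h

/-- one entry: `w` holds `a`, `x`, `y` in twelve bits each -/
def chk (m w : ℕ) : Bool :=
  (Nat.ble 1 (w % 4096) && Nat.ble (4 * (w % 4096) + 1) m) &&
  (Nat.ble (w / 4096 % 4096 + 1) (w % 4096) &&
   Nat.ble (w / 16777216 % 4096 + 1) (3 * (w % 4096))) &&
  Nat.beq ((m - 4 * (w % 4096)) * (m + 2 * (w % 4096)))
    ((w / 4096 % 4096) * (w / 4096 % 4096)
      + 3 * ((w / 16777216 % 4096) * (w / 16777216 % 4096)))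

theorem chk_five {m w : ℕ} (h : chk m w = true) : Five (m ^ 3) := by
  unfold chk at h
  generalize w % 4096 = a at h
  generalize w / 4096 % 4096 = x at h
  generalize w / 16777216 % 4096 = y at h
  rw [Bool.and_eq_true, Bool.and_eq_true, Bool.and_eq_true, Bool.and_eq_true] at h
  obtain ⟨⟨⟨h1, h2⟩, h3, h4⟩, h5⟩ := h
  have h1 := Nat.le_of_ble_eq_true h1
  have h2 := Nat.le_of_ble_eq_true h2
  have h3 := Nat.le_of_ble_eq_true h3
  have h4 := Nat.le_of_ble_eq_true h4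
  have h5 := Nat.eq_of_beq_eq_true h5
  obtain ⟨t, ht⟩ : ∃ t, m = 4 * a + t := ⟨m - 4 * a, by omega⟩
  have h6 : m - 4 * a = t := by omega
  rw [h6] at h5
  have ht' : (m : ℤ) = 4 * a + t := by exact_mod_cast ht
  have ha : (0 : ℤ) < a := by exact_mod_cast h1
  have hx : (x : ℤ) < a := by exact_mod_cast h3
  have hy : (y : ℤ) < 3 * a := by exact_mod_cast h4
  refine five_of_params (a := a) (x := x) (y := y) ha (by rw [ht']; linarith [Int.natCast_nonneg t])
    ?_ ?_ ?_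
  · have : (0 : ℤ) ≤ x := Int.natCast_nonneg x
    nlinarith
  · have : (0 : ℤ) ≤ y := Int.natCast_nonneg y
    nlinarith
  · have h5' : (t : ℤ) * (m + 2 * a) = x * x + 3 * (y * y) := by exact_mod_cast h5
    rw [ht'] at h5' ⊢
    linear_combination h5'

/-- `N` entries, for `m0, m0 + 2, ...` -/
def chkAll (m0 D : ℕ) (N : ℕ) : Bool :=
  Nat.rec true (fun n ih => chk (m0 + 2 * n) (D >>> (36 * n)) && ih) N

theorem chkAll_spec {m0 D : ℕ} : ∀ {N : ℕ}, chkAll m0 D N = true → ∀ i, i < N →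
    Five ((m0 + 2 * i) ^ 3)
  | 0, _, i, hi => by omega
  | N + 1, h, i, hi => by
    have h' : (chk (m0 + 2 * N) (D >>> (36 * N)) && chkAll m0 D N) = true := h
    rw [Bool.and_eq_true] at h'
    rcases Nat.lt_succ_iff_lt_or_eq.mp hi with h1 | h1
    · exact chkAll_spec h'.2 i h1
    · subst h1
      exact chk_five h'.1

end Pool.Agent.Cubes5
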