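import Pool.Agent.Cubes5.ThreeSquares
import Pool.Agent.Cubes5.Basic

/-!
Every cube of an odd `m ≥ 15811` is a sum of five positive cubes.
-/

namespace Pool.Agent.Cubes5

theorem sign_choice (A : ℤ) : ∃ A' : ℤ, A' ^ 2 = A ^ 2 ∧ (A' % 3 = 0 ∨ A' % 3 = 1) := by
  have h : A % 3 = 0 ∨ A % 3 = 1 ∨ A % 3 = 2 := by omega
  rcases h with h | h | h
  · exact ⟨A, rfl, Or.inl h⟩
  · exact ⟨A, rfl, Or.inr h⟩
  · exact ⟨-A, by ring, Or.inr (by omega)⟩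

theorem sq_mod_three {A : ℤ} : (A % 3 = 0 → ∃ q, A ^ 2 = 3 * q) ∧
    (A % 3 = 1 → ∃ q, A ^ 2 = 3 * q + 1) := by
  constructor
  · intro h
    obtain ⟨k, hk⟩ : ∃ k, A = 3 * k := ⟨A / 3, by omega⟩
    exact ⟨3 * k ^ 2, by rw [hk]; ring⟩
  · intro h
    obtain ⟨k, hk⟩ : ∃ k, A = 3 * k + 1 := ⟨A / 3, by omega⟩
    exact ⟨3 * k ^ 2 + 2 * k, by rw [hk]; ring⟩

theorem good_signs {A B C : ℤ} (h : (A ^ 2 + B ^ 2 + C ^ 2) % 3 ≠ 1) :
    ∃ A' B' C' : ℤ, A' ^ 2 = A ^ 2 ∧ B' ^ 2 = B ^ 2 ∧ C' ^ 2 = C ^ 2 ∧ (A' + B' + C') % 3 = 0 := by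
  obtain ⟨A1, hA, hA'⟩ := sign_choice A
  obtain ⟨B1, hB, hB'⟩ := sign_choice B
  obtain ⟨C1, hC, hC'⟩ := sign_choice C
  rw [← hA, ← hB, ← hC] at h
  rcases hA' with a | a <;> rcases hB' with b | b <;> rcases hC' with c | c
  · exact ⟨A1, B1, C1, hA, hB, hC, by omega⟩
  · exfalso
    obtain ⟨q1, e1⟩ := sq_mod_three.1 a
    obtain ⟨q2, e2⟩ := sq_mod_three.1 b
    obtain ⟨q3, e3⟩ := sq_mod_three.2 c
    omega
  · exfalso
    obtain ⟨q1, e1⟩ := sq_mod_three.1 a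
    obtain ⟨q2, e2⟩ := sq_mod_three.2 b
    obtain ⟨q3, e3⟩ := sq_mod_three.1 c
    omega
  · exact ⟨A1, B1, -C1, hA, hB, by rw [← hC]; ring, by omega⟩
  · exfalso
    obtain ⟨q1, e1⟩ := sq_mod_three.2 a
    obtain ⟨q2, e2⟩ := sq_mod_three.1 b
    obtain ⟨q3, e3⟩ := sq_mod_three.1 c
    omega
  · exact ⟨A1, B1, -C1, hA, hB, by rw [← hC]; ring, by omega⟩
  · exact ⟨A1, -B1, C1, hA, by rw [← hB]; ring, hC, by omega⟩
  · exact ⟨A1, B1, C1, hA, hB, hC, by omega⟩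

/-- If `r` is a sum of three squares and `r ≢ 1 mod 3` then `r = 2x² + 3y² + 6z²`. -/
theorem form_236 {r A B C : ℤ} (hr : r = A ^ 2 + B ^ 2 + C ^ 2) (h3 : r % 3 ≠ 1) :
    ∃ x y z : ℤ, r = 2 * x ^ 2 + 3 * y ^ 2 + 6 * z ^ 2 := by
  rw [hr] at h3
  obtain ⟨A1, B1, C1, hA, hB, hC, hs⟩ := good_signs h3
  have hr' : r = A1 ^ 2 + B1 ^ 2 + C1 ^ 2 := by rw [hr, hA, hB, hC]
  clear hA hB hC h3 hr
  have key : ∀ P Q R : ℤ, r = P ^ 2 + Q ^ 2 + R ^ 2 → (P + Q + R) % 3 = 0 → (P - Q) % 2 = 0 →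
      ∃ x y z : ℤ, r = 2 * x ^ 2 + 3 * y ^ 2 + 6 * z ^ 2 := by
    intro P Q R h1 h2 h3
    obtain ⟨x, hx⟩ : ∃ x, P - Q = 2 * x := ⟨(P - Q) / 2, by omega⟩
    obtain ⟨y, hy⟩ : ∃ y, P + Q + R = 3 * y := ⟨(P + Q + R) / 3, by omega⟩
    obtain ⟨z, hz⟩ : ∃ z, P + Q - 2 * R = 6 * z := ⟨(P + Q - 2 * R) / 6, by omega⟩
    have e1 : P = x + y + z := by omega
    have e2 : Q = -x + y + z := by omega
    have e3 : R = y - 2 * z := by omega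
    exact ⟨x, y, z, by rw [h1, e1, e2, e3]; ring⟩
  have h : (A1 - B1) % 2 = 0 ∨ (A1 - C1) % 2 = 0 ∨ (B1 - C1) % 2 = 0 := by omega
  rcases h with h | h | h
  · exact key A1 B1 C1 hr' hs h
  · exact key A1 C1 B1 (by rw [hr']; ring) (by omega) h
  · exact key B1 C1 A1 (by rw [hr']; ring) (by omega) h

/-- Norms from `ℤ[ω]`: a quarter of `P² + 3Q²` with `P, Q` odd is of the form `x² + 3y²`. -/
theorem norm_rep {N P Q : ℤ} (h : 4 * N = P ^ 2 + 3 * Q ^ 2) (hP : P % 2 = 1) (hQ : Q % 2 = 1) :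
    ∃ x y : ℤ, N = x ^ 2 + 3 * y ^ 2 := by
  have key : ∀ Q : ℤ, 4 * N = P ^ 2 + 3 * Q ^ 2 → (P + Q) % 4 = 0 →
      ∃ x y : ℤ, N = x ^ 2 + 3 * y ^ 2 := by
    intro Q h h4
    obtain ⟨t, ht⟩ : ∃ t, P + Q = 4 * t := ⟨(P + Q) / 4, by omega⟩
    have hP : P = 4 * t - Q := by omega
    refine ⟨t - Q, t, ?_⟩
    rw [hP] at h
    linarith [h, (by ring : (4 * t - Q) ^ 2 + 3 * Q ^ 2 = 4 * ((t - Q) ^ 2 + 3 * t ^ 2))]
  have h4 : (P + Q) % 4 = 0 ∨ (P + -Q) % 4 = 0 := by omega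
  rcases h4 with h4 | h4
  · exact key Q h h4
  · exact key (-Q) (by rw [h]; ring) h4

/-- The arithmetic heart: from `6m = k² + 2x² + 3y² + 6z²`. -/
theorem five_of_form {m : ℕ} {k x y z : ℤ} (hodd : m % 2 = 1) (hk : k % 2 = 1)
    (h : 6 * (m : ℤ) = k ^ 2 + (2 * x ^ 2 + 3 * y ^ 2 + 6 * z ^ 2))
    (hsmall : 77 * (2 * x ^ 2 + 3 * y ^ 2 + 6 * z ^ 2) ≤ 6 * (m : ℤ)) : Five (m ^ 3) := by
  obtain ⟨n, hn⟩ : ∃ n : ℤ, (m : ℤ) = 2 * n + 1 := ⟨(m : ℤ) / 2, by omega⟩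
  obtain ⟨k1, hk1⟩ : ∃ k1, k = 2 * k1 + 1 := ⟨k / 2, by omega⟩
  -- y is odd
  have hyodd : y % 2 = 1 := by
    rcases Int.emod_two_eq_zero_or_one y with h0 | h1
    · exfalso
      obtain ⟨y1, hy1⟩ : ∃ y1, y = 2 * y1 := ⟨y / 2, by omega⟩
      rw [hy1, hk1] at h
      have : 6 * (m : ℤ) = 2 * (2 * k1 ^ 2 + 2 * k1 + x ^ 2 + 6 * y1 ^ 2 + 3 * z ^ 2) + 1 := by
        rw [h]; ring
      omega
    · exact h1
  obtain ⟨y1, hy1⟩ : ∃ y1, y = 2 * y1 + 1 := ⟨y / 2, by omega⟩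
  -- x + z is odd
  have hxz : (x + z) % 2 = 1 := by
    rcases Int.emod_two_eq_zero_or_one (x + z) with h0 | h1
    · exfalso
      obtain ⟨s, hs⟩ : ∃ s, x + z = 2 * s := ⟨(x + z) / 2, by omega⟩
      have hx : x = 2 * s - z := by omega
      rw [hx, hk1, hy1, hn] at h
      have : 12 * n + 6 = 4 * (k1 ^ 2 + k1 + 2 * s ^ 2 - 2 * s * z + 2 * z ^ 2
          + 3 * y1 ^ 2 + 3 * y1 + 1) := by
        linear_combination h
      omega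
    · exact h1
  obtain ⟨X, hX⟩ : ∃ X, X = x ^ 2 + 3 * z ^ 2 := ⟨_, rfl⟩
  obtain ⟨Y, hY⟩ : ∃ Y, Y = k1 ^ 2 + k1 + 3 * y1 ^ 2 + 3 * y1 + 1 := ⟨_, rfl⟩
  have hXY : 3 * (m : ℤ) = 2 * Y + X := by
    rw [hX, hY]
    rw [hk1, hy1] at h
    linarith
  have hYodd : Y % 2 = 1 := by
    have e1 : k1 * (k1 + 1) % 2 = 0 := by
      rcases Int.emod_two_eq_zero_or_one k1 with h0 | h1
      · obtain ⟨q, hq⟩ : ∃ q, k1 = 2 * q := ⟨k1 / 2, by omega⟩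
        rw [hq]
        have : 2 * q * (2 * q + 1) = 2 * (q * (2 * q + 1)) := by ring
        omega
      · obtain ⟨q, hq⟩ : ∃ q, k1 = 2 * q + 1 := ⟨k1 / 2, by omega⟩
        rw [hq]
        have : (2 * q + 1) * (2 * q + 1 + 1) = 2 * ((2 * q + 1) * (q + 1)) := by ring
        omega
    have e2 : y1 * (y1 + 1) % 2 = 0 := by
      rcases Int.emod_two_eq_zero_or_one y1 with h0 | h1
      · obtain ⟨q, hq⟩ : ∃ q, y1 = 2 * q := ⟨y1 / 2, by omega⟩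
        rw [hq]
        have : 2 * q * (2 * q + 1) = 2 * (q * (2 * q + 1)) := by ring
        omega
      · obtain ⟨q, hq⟩ : ∃ q, y1 = 2 * q + 1 := ⟨y1 / 2, by omega⟩
        rw [hq]
        have : (2 * q + 1) * (2 * q + 1 + 1) = 2 * ((2 * q + 1) * (q + 1)) := by ring
        omega
    have e3 : Y = k1 * (k1 + 1) + 3 * (y1 * (y1 + 1)) + 1 := by rw [hY]; ring
    omega
  obtain ⟨a, ha⟩ : ∃ a, Y = m + 2 * a := ⟨(Y - m) / 2, by omega⟩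
  have hXa : X = m - 4 * a := by linarith
  have hXpos : 0 < X := by
    have h0 : 0 ≤ X := by rw [hX]; positivity
    have h1 : X ≠ 0 := by
      intro h1
      rw [hXa] at h1
      omega
    omega
  have hbig : 38 * X ≤ Y := by
    have e1 : 77 * (2 * X) ≤ 6 * (m : ℤ) := by
      rw [hX]
      nlinarith [sq_nonneg y]
    linarith
  have h6a : 6 * a = Y - X := by linarith
  have hapos : 0 < a := by linarith
  have hlt : X * Y < a ^ 2 := by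
    have e1 : 36 * a ^ 2 = (Y - X) ^ 2 := by rw [← h6a]; ring
    have e2 : 36 * (X * Y) < (Y - X) ^ 2 := by nlinarith
    linarith
  have hnorm : 4 * (X * Y) = (x * k - 3 * z * y) ^ 2 + 3 * (x * y + z * k) ^ 2 := by
    have e1 : 4 * Y = k ^ 2 + 3 * y ^ 2 := by rw [hY, hk1, hy1]; ring
    have e2 : 4 * (X * Y) = X * (4 * Y) := by ring
    rw [e2, e1, hX]
    ring
  have hP : (x * k - 3 * z * y) % 2 = 1 := by
    have : x * k - 3 * z * y = (x + z) + 2 * (x * k1 - 3 * z * y1 - 2 * z) := by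
      rw [hk1, hy1]; ring
    omega
  have hQ : (x * y + z * k) % 2 = 1 := by
    have : x * y + z * k = (x + z) + 2 * (x * y1 + z * k1) := by
      rw [hk1, hy1]; ring
    omega
  obtain ⟨x1, y1', hxy⟩ := norm_rep hnorm hP hQ
  refine five_of_params (m := m) (a := a) (x := x1) (y := y1') hapos (by linarith) ?_ ?_ ?_
  · nlinarith [sq_nonneg y1']
  · nlinarith [sq_nonneg x1, sq_nonneg y1']
  · rw [← hXa, ← ha, hxy]

theorem large_odd {m : ℕ} (hodd : m % 2 = 1) (hm : 15811 ≤ m) : Five (m ^ 3) := by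
  obtain ⟨s, hs⟩ : ∃ s, s = Nat.sqrt (6 * m) := ⟨_, rfl⟩
  have h1 : s * s ≤ 6 * m := by rw [hs]; exact Nat.sqrt_le _
  have h2 : 6 * m < (s + 1) * (s + 1) := by rw [hs]; exact Nat.lt_succ_sqrt _
  have hs308 : 308 ≤ s := by
    by_contra hcon
    have : s + 1 ≤ 308 := by omega
    have : (s + 1) * (s + 1) ≤ 308 * 308 := Nat.mul_le_mul this this
    omega
  obtain ⟨k, hk, hk1, hk2⟩ : ∃ k : ℕ, k % 2 = 1 ∧ k ≤ s ∧ s ≤ k + 1 := by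
    rcases Nat.mod_two_eq_zero_or_one s with h | h
    · exact ⟨s - 1, by omega, by omega, by omega⟩
    · exact ⟨s, h, le_rfl, by omega⟩
  have hk3 : k * k ≤ 6 * m := le_trans (Nat.mul_le_mul hk1 hk1) h1
  obtain ⟨r, hr⟩ : ∃ r, 6 * m = k * k + r := ⟨6 * m - k * k, by omega⟩
  have hr77 : 77 * r ≤ 6 * m := by
    have e1 : s * s ≤ (k + 1) * (k + 1) := Nat.mul_le_mul hk2 hk2
    have e2 : 6 * m < (k + 2) * (k + 2) :=
      lt_of_lt_of_le h2 (Nat.mul_le_mul (by omega) (by omega))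
    have e3 : k * s ≤ s * s := Nat.mul_le_mul hk1 le_rfl
    have e4 : 308 * s ≤ s * s := Nat.mul_le_mul hs308 le_rfl
    nlinarith
  obtain ⟨j, hj⟩ : ∃ j, k = 2 * j + 1 := ⟨k / 2, by omega⟩
  obtain ⟨n, hn⟩ : ∃ n, m = 2 * n + 1 := ⟨m / 2, by omega⟩
  have hr4 : r % 4 = 1 := by
    have e1 : k * k = 4 * (j * j + j) + 1 := by rw [hj]; ring
    omega
  have hr3 : (r : ℤ) % 3 ≠ 1 := by
    have hk3 : k % 3 = 0 ∨ k % 3 = 1 ∨ k % 3 = 2 := by omega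
    rcases hk3 with h | h | h
    · obtain ⟨q, hq⟩ : ∃ q, k = 3 * q := ⟨k / 3, by omega⟩
      have e1 : k * k = 3 * (3 * (q * q)) := by rw [hq]; ring
      omega
    · obtain ⟨q, hq⟩ : ∃ q, k = 3 * q + 1 := ⟨k / 3, by omega⟩
      have e1 : k * k = 3 * (3 * (q * q) + 2 * q) + 1 := by rw [hq]; ring
      omega
    · obtain ⟨q, hq⟩ : ∃ q, k = 3 * q + 2 := ⟨k / 3, by omega⟩
      have e1 : k * k = 3 * (3 * (q * q) + 4 * q + 1) + 1 := by rw [hq]; ring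
      omega
  obtain ⟨A, B, C, hABC⟩ := three_squares hr4
  obtain ⟨x, y, z, hxyz⟩ := form_236 hABC hr3
  refine five_of_form (k := k) (x := x) (y := y) (z := z) hodd (by omega) ?_ ?_
  · rw [← hxyz, pow_two]
    exact_mod_cast hr
  · rw [← hxyz]
    exact_mod_cast hr77

end Pool.Agent.Cubes5
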