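import Mathlib.Tactic

/-!
Positive definite integral ternary forms of determinant one are sums of three squares of integral
linear forms; here in the form needed: all their values are sums of three squares.
-/

namespace Pool.Agent.Cubes5

/-- All values of the form `a x² + b y² + c z² + 2 d y z + 2 e x z + 2 f x y` are sums of three
squares. -/
def AllSums (a b c d e f : ℤ) : Prop :=
  ∀ x y z : ℤ, ∃ u v w : ℤ,
    a * x ^ 2 + b * y ^ 2 + c * z ^ 2 + 2 * d * y * z + 2 * e * x * z + 2 * f * x * y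
      = u ^ 2 + v ^ 2 + w ^ 2

theorem AllSums.shiftX {a b c d e f : ℤ} (t : ℤ)
    (h : AllSums a (b + 2 * f * t + a * t ^ 2) c (d + e * t) e (f + a * t)) :
    AllSums a b c d e f := by
  intro x y z
  obtain ⟨u, v, w, h1⟩ := h (x - t * y) y z
  refine ⟨u, v, w, ?_⟩
  rw [← h1]
  ring

theorem AllSums.shiftY {a b c d e f : ℤ} (s : ℤ)
    (h : AllSums a b (c + 2 * d * s + b * s ^ 2) (d + b * s) (e + f * s) f) :
    AllSums a b c d e f := by
  intro x y z
  obtain ⟨u, v, w, h1⟩ := h x (y - s * z) z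
  refine ⟨u, v, w, ?_⟩
  rw [← h1]
  ring

theorem AllSums.swapXY {a b c d e f : ℤ} (h : AllSums b a c e d f) : AllSums a b c d e f := by
  intro x y z
  obtain ⟨u, v, w, h1⟩ := h y x z
  refine ⟨u, v, w, ?_⟩
  rw [← h1]
  ring

theorem AllSums.swapYZ {a b c d e f : ℤ} (h : AllSums a c b d f e) : AllSums a b c d e f := by
  intro x y z
  obtain ⟨u, v, w, h1⟩ := h x z y
  refine ⟨u, v, w, ?_⟩
  rw [← h1]
  ring

/-- balanced residue -/
theorem exists_balanced (f a : ℤ) (ha : 0 < a) : ∃ t : ℤ, 4 * (f + a * t) ^ 2 ≤ a ^ 2 := by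
  refine ⟨-((2 * f + a) / (2 * a)), ?_⟩
  set q := (2 * f + a) / (2 * a) with hq
  have h1 : 2 * a * q ≤ 2 * f + a := by
    have := Int.mul_ediv_self_le (x := 2 * f + a) (k := 2 * a) (by omega)
    exact this
  have h2 : 2 * f + a < 2 * a * q + 2 * a := by
    have := Int.lt_mul_ediv_self_add (x := 2 * f + a) (k := 2 * a) (by omega)
    exact this
  have h3 : -a ≤ 2 * (f + a * -q) := by nlinarith
  have h4 : 2 * (f + a * -q) ≤ a := by nlinarith
  nlinarith

theorem allSums_of_det_one_aux (N : ℕ) : ∀ M : ℕ, ∀ a b c d e f : ℤ, 0 < a → 0 < a * b - f ^ 2 →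
    a * b * c + 2 * d * e * f - a * d ^ 2 - b * e ^ 2 - c * f ^ 2 = 1 →
    a.toNat = N → (a * b - f ^ 2).toNat = M → AllSums a b c d e f := by
  induction N using Nat.strong_induction_on with
  | _ N ihN =>
  intro M
  induction M using Nat.strong_induction_on with
  | _ M ihM =>
  intro a b c d e f ha hg hdet hN hM
  -- normalise f
  obtain ⟨t, ht⟩ := exists_balanced f a ha
  apply AllSums.shiftX t
  obtain ⟨b', hb'⟩ : ∃ b' : ℤ, b' = b + 2 * f * t + a * t ^ 2 := ⟨_, rfl⟩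
  obtain ⟨d', hd'⟩ : ∃ d' : ℤ, d' = d + e * t := ⟨_, rfl⟩
  obtain ⟨f', hf'⟩ : ∃ f' : ℤ, f' = f + a * t := ⟨_, rfl⟩
  rw [← hb', ← hd', ← hf']
  rw [← hf'] at ht
  have hg' : a * b' - f' ^ 2 = a * b - f ^ 2 := by rw [hb', hf']; ring
  have hdet' : a * b' * c + 2 * d' * e * f' - a * d' ^ 2 - b' * e ^ 2 - c * f' ^ 2 = 1 := by
    rw [← hdet, hb', hf', hd']; ring
  rw [← hg'] at hg hM
  clear hg' hdet hb' hd' hf'
  have hb'pos : 0 < b' := by
    by_contra h
    have : a * b' ≤ 0 := by nlinarith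
    nlinarith [sq_nonneg f']
  by_cases hcase : b' < a
  · apply AllSums.swapXY
    have h1 : b'.toNat < N := by omega
    refine ihN b'.toNat h1 (b' * a - f' ^ 2).toNat b' a c e d' f' hb'pos ?_ ?_ rfl rfl
    · linarith [mul_comm a b']
    · rw [← hdet']; ring
  push Not at hcase
  -- normalise k
  obtain ⟨g, hgdef⟩ : ∃ g : ℤ, g = a * b' - f' ^ 2 := ⟨_, rfl⟩
  obtain ⟨s, hs⟩ := exists_balanced (a * d' - e * f') g (by rw [hgdef]; exact hg)
  apply AllSums.shiftY s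
  obtain ⟨c2, hc2⟩ : ∃ c2 : ℤ, c2 = c + 2 * d' * s + b' * s ^ 2 := ⟨_, rfl⟩
  obtain ⟨d2, hd2⟩ : ∃ d2 : ℤ, d2 = d' + b' * s := ⟨_, rfl⟩
  obtain ⟨e2, he2⟩ : ∃ e2 : ℤ, e2 = e + f' * s := ⟨_, rfl⟩
  rw [← hc2, ← hd2, ← he2]
  have hk : a * d' - e * f' + g * s = a * d2 - e2 * f' := by
    rw [hd2, he2, hgdef]; ring
  rw [hk] at hs
  have hdet2 : a * b' * c2 + 2 * d2 * e2 * f' - a * d2 ^ 2 - b' * e2 ^ 2 - c2 * f' ^ 2 = 1 := by
    rw [← hdet', hc2, hd2, he2]; ring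
  clear hdet' hc2 hd2 he2 hk
  obtain ⟨k, hkdef⟩ : ∃ k : ℤ, k = a * d2 - e2 * f' := ⟨_, rfl⟩
  obtain ⟨h, hhdef⟩ : ∃ h : ℤ, h = a * c2 - e2 ^ 2 := ⟨_, rfl⟩
  have hgh : g * h - k ^ 2 = a := by
    have : g * h - k ^ 2
        = a * (a * b' * c2 + 2 * d2 * e2 * f' - a * d2 ^ 2 - b' * e2 ^ 2 - c2 * f' ^ 2) := by
      rw [hgdef, hhdef, hkdef]; ring
    rw [this, hdet2, mul_one]
  rw [← hkdef] at hs
  have hgpos : 0 < g := by rw [hgdef]; exact hg
  have hhpos : 0 < h := by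
    by_contra hcon
    have : g * h ≤ 0 := by nlinarith
    nlinarith [sq_nonneg k]
  by_cases hcase2 : h < g
  · apply AllSums.swapYZ
    have h1 : (a * c2 - e2 ^ 2).toNat < M := by rw [← hM, ← hhdef, ← hgdef]; omega
    refine ihM _ h1 a c2 b' d2 f' e2 ha ?_ ?_ hN rfl
    · rw [← hhdef]; exact hhpos
    · rw [← hdet2]; ring
  push Not at hcase2
  -- bounds
  have e1 : 3 * g ^ 2 ≤ 4 * a := by nlinarith
  have e2' : 3 * a ^ 2 ≤ 4 * g := by nlinarith
  have ha1 : a = 1 := by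
    have h4 : g ≤ a + 1 := by nlinarith
    by_contra hne
    have ha2 : 2 ≤ a := by omega
    have hg2 : a ≤ g := by nlinarith
    nlinarith
  subst ha1
  have hg1 : g = 1 := by nlinarith
  have hf0 : f' = 0 := by nlinarith [sq_nonneg f']
  have hk0 : k = 0 := by
    rw [hg1] at hs
    nlinarith [sq_nonneg k]
  subst hf0
  have hb1 : b' = 1 := by linarith
  subst hb1
  have hd0 : d2 = 0 := by linarith
  subst hd0
  have hc : c2 = 1 + e2 ^ 2 := by
    rw [hk0, hg1] at hgh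
    linarith
  subst hc
  intro x y z
  exact ⟨x + e2 * z, y, z, by ring⟩

theorem allSums_of_det_one {a b c d e f : ℤ} (ha : 0 < a) (hg : 0 < a * b - f ^ 2)
    (hdet : a * b * c + 2 * d * e * f - a * d ^ 2 - b * e ^ 2 - c * f ^ 2 = 1) :
    AllSums a b c d e f :=
  allSums_of_det_one_aux a.toNat (a * b - f ^ 2).toNat a b c d e f ha hg hdet rfl rfl

end Pool.Agent.Cubes5
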