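import Mathlib.NumberTheory.LSeries.PrimesInAP
import Mathlib.NumberTheory.LegendreSymbol.JacobiSymbol
import Pool.Agent.Cubes5.Ternary

/-!
The three squares theorem for `n ≡ 1 mod 4` (the case needed here).
-/

namespace Pool.Agent.Cubes5

open NumberTheorySymbols

/-- If `-d` is a square modulo `d n - 1 > 0` then `n` is a sum of three squares. -/
theorem three_squares_of_residue (n d b : ℤ) (hd : 0 < d) (hpos : 0 < d * n - 1)
    (hb : d * n - 1 ∣ b ^ 2 + d) : ∃ u v w : ℤ, n = u ^ 2 + v ^ 2 + w ^ 2 := by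
  obtain ⟨a, ha⟩ := hb
  have hapos : 0 < a := by
    by_contra hcon
    have : (d * n - 1) * a ≤ 0 := by nlinarith
    nlinarith [sq_nonneg b]
  have h := allSums_of_det_one (a := a) (b := d * n - 1) (c := n) (d := 0) (e := 1) (f := b)
    hapos (by nlinarith) (by nlinarith)
  obtain ⟨u, v, w, h1⟩ := h 0 0 1
  exact ⟨u, v, w, by linarith⟩

theorem jacobi_aux {p d : ℕ} (hp : Odd p) (hd : d % 8 = 3) {n : ℕ} (h : 2 * p + 1 = d * n) :
    J(-(d : ℤ) | p) = 1 := by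
  have hd2 : Odd d := by rw [Nat.odd_iff]; omega
  have key : J(p | d) = 1 := by
    have h2 : J((2 : ℤ) * p | d) = J(-1 | d) := by
      apply jacobiSym.mod_left'
      have : (2 * (p : ℤ)) = -1 + d * n := by
        have : (2 * (p : ℤ) + 1) = d * n := by exact_mod_cast h
        linarith
      rw [this]
      simp
    rw [jacobiSym.mul_left] at h2
    have h3 : J(2 | d) = -1 := by
      rw [jacobiSym.at_two hd2, ZMod.χ₈_nat_eq_if_mod_eight]
      have : d % 2 ≠ 0 := by omega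
      have h1 : ¬ (d % 8 = 1 ∨ d % 8 = 7) := by omega
      simp [this, h1]
    have h4 : J(-1 | d) = -1 := by
      rw [jacobiSym.at_neg_one hd2]
      exact ZMod.χ₄_nat_three_mod_four (by omega)
    rw [h3, h4] at h2
    linarith
  rw [jacobiSym.neg _ hp]
  have hp2 : p % 4 = 1 ∨ p % 4 = 3 := by
    rcases hp with ⟨k, hk⟩; omega
  rcases hp2 with h1 | h3
  · rw [ZMod.χ₄_nat_one_mod_four h1, one_mul,
      ← jacobiSym.quadratic_reciprocity_one_mod_four h1 hd2, key]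
  · rw [ZMod.χ₄_nat_three_mod_four h3,
      jacobiSym.quadratic_reciprocity_three_mod_four (by omega) h3, key]
    norm_num

/-- **Three squares theorem** for `n ≡ 1 mod 4`. -/
theorem three_squares {n : ℕ} (hn : n % 4 = 1) :
    ∃ u v w : ℤ, (n : ℤ) = u ^ 2 + v ^ 2 + w ^ 2 := by
  obtain ⟨m, hm⟩ : ∃ m, n = 4 * m + 1 := ⟨n / 4, by omega⟩
  -- residue (3n-1)/2 = 6m+1
  have hcop : Nat.Coprime (6 * m + 1) (4 * n) := by
    have h1 : Nat.Coprime (6 * m + 1) 4 := by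
      have : Nat.Coprime (6 * m + 1) 2 := by
        rw [Nat.coprime_two_right, Nat.odd_iff]; omega
      exact Nat.Coprime.pow_right 2 this
    have h2 : Nat.Coprime (6 * m + 1) n := by
      rw [hm]
      rw [Nat.coprime_iff_gcd_eq_one]
      have hg1 : Nat.gcd (6 * m + 1) (4 * m + 1) ∣ 6 * m + 1 := Nat.gcd_dvd_left _ _
      have hg2 : Nat.gcd (6 * m + 1) (4 * m + 1) ∣ 4 * m + 1 := Nat.gcd_dvd_right _ _
      have h3 : Nat.gcd (6 * m + 1) (4 * m + 1) ∣ 3 * (4 * m + 1) - 2 * (6 * m + 1) :=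
        Nat.dvd_sub (Dvd.dvd.mul_left hg2 3) (Dvd.dvd.mul_left hg1 2)
      have h4 : 3 * (4 * m + 1) - 2 * (6 * m + 1) = 1 := by omega
      rw [h4] at h3
      exact Nat.dvd_one.mp h3
    exact Nat.Coprime.mul_right h1 h2
  obtain ⟨p, hgt, hp, hmod⟩ :=
    Nat.forall_exists_prime_gt_and_modEq (6 * m + 1) (q := 4 * n) (a := 6 * m + 1)
      (by omega) hcop
  obtain ⟨j, hj⟩ : ∃ j, p = 4 * n * j + (6 * m + 1) := by
    have h1 : (6 * m + 1) ≡ p [MOD 4 * n] := hmod.symm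
    have h2 : 4 * n ∣ p - (6 * m + 1) := (Nat.modEq_iff_dvd' hgt.le).mp h1
    obtain ⟨j, hj⟩ := h2
    exact ⟨j, by omega⟩
  have hdn : 2 * p + 1 = (8 * j + 3) * n := by
    rw [hj, hm]; ring
  have hpodd : Odd p := by
    rw [Nat.odd_iff, hj]
    have : (4 * n * j) % 2 = 0 := by
      have : 4 * n * j = 2 * (2 * n * j) := by ring
      omega
    omega
  have hjac := jacobi_aux hpodd (d := 8 * j + 3) (by omega) hdn
  have : Fact p.Prime := ⟨hp⟩
  obtain ⟨r, hr⟩ := ZMod.isSquare_of_jacobiSym_eq_one hjac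
  -- lift to an odd integer
  obtain ⟨b0, hb0⟩ : ∃ b0 : ℤ, (p : ℤ) ∣ b0 ^ 2 + (8 * j + 3 : ℕ) := by
    refine ⟨(r.val : ℤ), ?_⟩
    rw [← ZMod.intCast_zmod_eq_zero_iff_dvd]
    push_cast
    rw [ZMod.natCast_zmod_val]
    push_cast at hr
    linear_combination -hr
  obtain ⟨b, hb, hbodd⟩ : ∃ b : ℤ, (p : ℤ) ∣ b ^ 2 + (8 * j + 3 : ℕ) ∧ b % 2 = 1 := by
    rcases Int.emod_two_eq_zero_or_one b0 with h0 | h1
    · refine ⟨b0 + p, ?_, ?_⟩
      · obtain ⟨c, hc⟩ := hb0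
        exact ⟨c + 2 * b0 + p, by linear_combination hc⟩
      · rcases hpodd with ⟨k, hk⟩
        omega
    · exact ⟨b0, hb0, h1⟩
  have h2p : (2 * p : ℤ) ∣ b ^ 2 + (8 * j + 3 : ℕ) := by
    apply IsCoprime.mul_dvd ?_ ?_ hb
    · have : Nat.Coprime 2 p := by
        rw [Nat.coprime_two_left]; exact hpodd
      exact_mod_cast this.isCoprime
    · obtain ⟨k, hk⟩ : ∃ k, b = 2 * k + 1 := ⟨b / 2, by omega⟩
      exact ⟨2 * k ^ 2 + 2 * k + 4 * j + 2, by rw [hk]; push_cast; ring⟩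
  have hdn' : ((8 * j + 3 : ℕ) : ℤ) * (n : ℤ) - 1 = 2 * p := by
    have : (2 * (p : ℤ) + 1) = ((8 * j + 3 : ℕ) : ℤ) * n := by exact_mod_cast hdn
    linarith
  have hppos : (0 : ℤ) < p := by exact_mod_cast hp.pos
  exact three_squares_of_residue n ((8 * j + 3 : ℕ) : ℤ) b (by positivity)
    (by rw [hdn']; linarith) (by rw [hdn']; exact h2p)

end Pool.Agent.Cubes5
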